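import Pool.Agent.Cofin67.PartA

/-!
Part (b): a Borel sigma-ideal `IB` on the Cantor space whose cofinMinus is the bounding number
while its cofin is at least the groupwise density number.

A point `z` of the Cantor space codes an index `idx z` and rows `row k z`, `k = 0, 1, ...`.
The base sets are `V f = {z | ∀ k ≤ idx z, row k z ∈ W f}`, with `W f` as in part (a).
-/

namespace Pool.Agent.Cofin77

open Set Cardinal Ordinal Pool.Agent.Cofin67

/-- The `k`-th row of `z`. -/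
def row (k : ℕ) (z : ℕ → Bool) : ℕ → Bool := fun t => z (Nat.pair (k + 1) t)

/-- The index of `z`: the least `j` with `z (pair 0 j) = true`, and `0` if there is none. -/
noncomputable def idx (z : ℕ → Bool) : ℕ := sInf {j | z (Nat.pair 0 j) = true}

/-- The base sets. -/
def V (f : ℕ → ℕ) : Set (ℕ → Bool) := {z | ∀ k ≤ idx z, row k z ∈ W f}

/-- The sigma-ideal with base `V f`. -/
def IB : Set (Set (ℕ → Bool)) := {A | ∃ f, A ⊆ V f}

/-- The point with index `n` and rows `x`. -/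
def enc (n : ℕ) (x : ℕ → ℕ → Bool) : ℕ → Bool := fun t =>
  if (Nat.unpair t).1 = 0 then decide ((Nat.unpair t).2 = n)
  else x ((Nat.unpair t).1 - 1) (Nat.unpair t).2

theorem row_enc (n : ℕ) (x : ℕ → ℕ → Bool) (k : ℕ) : row k (enc n x) = x k := by
  funext t
  simp [row, enc]

theorem idx_enc (n : ℕ) (x : ℕ → ℕ → Bool) : idx (enc n x) = n := by
  have : {j | enc n x (Nat.pair 0 j) = true} = {n} := by
    ext j
    simp [enc]
  simp [idx, this]

theorem enc_mem_V {n : ℕ} {x : ℕ → ℕ → Bool} {f : ℕ → ℕ} :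
    enc n x ∈ V f ↔ ∀ k ≤ n, x k ∈ W f := by
  simp [V, idx_enc, row_enc]

theorem V_mono {f g : ℕ → ℕ} (h : EvLe f g) : V f ⊆ V g :=
  fun _ hz k hk => W_mono h (hz k hk)

theorem V_mem_IB (f : ℕ → ℕ) : V f ∈ IB := ⟨f, subset_rfl⟩

theorem IB_sigma : IsSigmaIdeal IB := by
  refine ⟨⟨fun _ => 0, Set.empty_subset _⟩, ?_, ?_⟩
  · rintro A ⟨f, hf⟩ B hB
    exact ⟨f, hB.trans hf⟩
  · intro A hA
    choose f hf using hA
    obtain ⟨g, hg⟩ := exists_bound f
    exact ⟨g, Set.iUnion_subset fun n => (hf n).trans (V_mono (hg n))⟩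

theorem le_idx {z : ℕ → Bool} {k : ℕ} : k + 1 ≤ idx z ↔
    (∃ j, z (Nat.pair 0 j) = true) ∧ ∀ j < k + 1, z (Nat.pair 0 j) = false := by
  constructor
  · intro h
    have hne : {j | z (Nat.pair 0 j) = true}.Nonempty := by
      by_contra hcon
      rw [Set.not_nonempty_iff_eq_empty] at hcon
      rw [idx, hcon] at h
      simp at h
    refine ⟨hne, fun j hj => ?_⟩
    by_contra hcon
    have h1 : j ∈ {j | z (Nat.pair 0 j) = true} := by simpa using hcon
    have h2 : idx z ≤ j := Nat.sInf_le h1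
    omega
  · rintro ⟨hne, h⟩
    have h1 := Nat.sInf_mem (s := {j | z (Nat.pair 0 j) = true}) hne
    by_contra hcon
    have h2 := h (idx z) (by omega)
    have h3 : z (Nat.pair 0 (idx z)) = true := h1
    rw [h2] at h3
    exact absurd h3 (by decide)

theorem V_borel (f : ℕ → ℕ) : @MeasurableSet (ℕ → Bool) (borel (ℕ → Bool)) (V f) := by
  have hW := W_borel f
  let _ : MeasurableSpace (ℕ → Bool) := borel (ℕ → Bool)
  have _ : BorelSpace (ℕ → Bool) := ⟨rfl⟩
  have hb : ∀ (t : ℕ) (b : Bool), MeasurableSet {x : ℕ → Bool | x t = b} := by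
    intro t b
    have hc : Continuous (fun x : ℕ → Bool => x t) := continuous_apply t
    exact ((isOpen_discrete {b}).preimage hc).measurableSet
  have hi : ∀ k : ℕ, MeasurableSet {z : ℕ → Bool | k ≤ idx z} := by
    intro k
    cases k with
    | zero => simp
    | succ k =>
      have : {z : ℕ → Bool | k + 1 ≤ idx z} =
          (⋃ j : ℕ, {z : ℕ → Bool | z (Nat.pair 0 j) = true}) ∩
            ⋂ j : ℕ, ⋂ _ : j < k + 1, {z : ℕ → Bool | z (Nat.pair 0 j) = false} := by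
        ext z
        simp only [Set.mem_ofPred_eq, Set.mem_inter_iff, Set.mem_iUnion, Set.mem_iInter]
        exact le_idx
      rw [this]
      exact (MeasurableSet.iUnion fun j => hb _ _).inter
        (MeasurableSet.iInter fun j => MeasurableSet.iInter fun _ => hb _ _)
  have hr : ∀ k : ℕ, MeasurableSet (row k ⁻¹' W f) := by
    intro k
    have hc : Continuous (row k) := continuous_pi fun t => continuous_apply _
    exact hc.measurable hW
  have : V f = ⋂ k : ℕ, ({z : ℕ → Bool | k ≤ idx z}ᶜ ∪ row k ⁻¹' W f) := by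
    ext z
    simp only [V, Set.mem_ofPred_eq, Set.mem_iInter, Set.mem_union, Set.mem_compl_iff,
      Set.mem_preimage]
    constructor
    · intro h k
      by_cases hk : k ≤ idx z
      · exact Or.inr (h k hk)
      · exact Or.inl hk
    · intro h k hk
      exact (h k).resolve_left (fun h' => h' hk)
  rw [this]
  exact MeasurableSet.iInter fun k => (hi k).compl.union (hr k)

theorem IB_borel : IsBorelSigmaIdeal IB :=
  ⟨IB_sigma, fun _ ⟨f, hf⟩ => ⟨V f, ⟨f, subset_rfl⟩, hf, V_borel f⟩⟩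

theorem IB_singleton (z : ℕ → Bool) : {z} ∈ IB := by
  have h : ∀ k, ∃ f, row k z ∈ W f := fun k => by
    obtain ⟨f, hf⟩ := ID_singleton (row k z)
    exact ⟨f, hf rfl⟩
  choose f hf using h
  obtain ⟨g, hg⟩ := exists_bound f
  refine ⟨g, ?_⟩
  rw [Set.singleton_subset_iff]
  intro k _
  exact W_mono (hg k) (hf k)

theorem IB_univ : Set.univ ∉ IB := by
  rintro ⟨f, hf⟩
  have h1 : enc 0 (fun _ => pt Set.univ (fun n => f n + 1)) ∈ V f := hf (Set.mem_univ _)
  have h2 := enc_mem_V.mp h1 0 le_rfl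
  obtain ⟨n, -, -, h⟩ := (pt_mem_W Set.infinite_univ).mp h2 0
  omega

theorem IB_sUnion : ⋃₀ IB ∉ IB := by
  have : ⋃₀ IB = Set.univ := by
    ext x
    simp only [mem_sUnion, mem_univ, iff_true]
    exact ⟨{x}, IB_singleton x, rfl⟩
  rw [this]; exact IB_univ

theorem bNum_le_add_IB : bNum ≤ add IB := by
  obtain ⟨𝒜, h1, h2, h3⟩ := add_mem IB_sUnion
  rw [h3]
  by_contra hcon
  have hlt := not_le.mp hcon
  apply h2
  have hch : ∀ A : 𝒜, ∃ f, (A : Set (ℕ → Bool)) ⊆ V f := fun A => h1 A.2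
  choose f hf using hch
  have hr : #(Set.range f) < bNum := lt_of_le_of_lt Cardinal.mk_range_le hlt
  obtain ⟨g, hg⟩ := bounded_of_lt hr
  refine ⟨g, Set.sUnion_subset fun A hA => ?_⟩
  exact (hf ⟨A, hA⟩).trans (V_mono (hg _ ⟨_, rfl⟩))


/-- The sequences of rows that occur in `A` with infinitely many indices. -/
def Lim (A : Set (ℕ → Bool)) : Set (ℕ → ℕ → Bool) := {x | ∀ N, ∃ n, N ≤ n ∧ enc n x ∈ A}

/-- The ideal generated by the sets `{x | ∀ k, x k ∈ W h}` with `h` not above `g`. -/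
def Small (g : ℕ → ℕ) : Set (Set (ℕ → ℕ → Bool)) :=
  {B | ∃ H : Set (ℕ → ℕ), H.Finite ∧ (∀ h ∈ H, ¬ EvLe g h) ∧
    ∀ x ∈ B, ∃ h ∈ H, ∀ k, x k ∈ W h}

theorem Lim_mono {A B : Set (ℕ → Bool)} (h : A ⊆ B) : Lim A ⊆ Lim B := fun _ hx N => by
  obtain ⟨n, hn, hn'⟩ := hx N
  exact ⟨n, hn, h hn'⟩

theorem Lim_union (A B : Set (ℕ → Bool)) : Lim (A ∪ B) ⊆ Lim A ∪ Lim B := by
  intro x hx
  by_cases h1 : ∀ N, ∃ n, N ≤ n ∧ enc n x ∈ A
  · exact Or.inl h1
  · right
    push Not at h1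
    obtain ⟨N₀, hN₀⟩ := h1
    intro N
    obtain ⟨n, hn, h⟩ := hx (max N₀ N)
    refine ⟨n, (le_max_right _ _).trans hn, ?_⟩
    rcases h with h | h
    · exact absurd h (hN₀ n ((le_max_left _ _).trans hn))
    · exact h

theorem Lim_V (f : ℕ → ℕ) : Lim (V f) = {x | ∀ k, x k ∈ W f} := by
  ext x
  constructor
  · intro hx k
    obtain ⟨n, hn, h⟩ := hx k
    exact enc_mem_V.mp h k hn
  · intro hx N
    exact ⟨N, le_rfl, enc_mem_V.mpr fun k _ => hx k⟩

theorem Small_empty (g : ℕ → ℕ) : ∅ ∈ Small g :=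
  ⟨∅, Set.finite_empty, fun _ h => absurd h (Set.notMem_empty _), fun _ h =>
    absurd h (Set.notMem_empty _)⟩

theorem Small_mono {g : ℕ → ℕ} {A B : Set (ℕ → ℕ → Bool)} (hB : B ∈ Small g) (h : A ⊆ B) :
    A ∈ Small g := by
  obtain ⟨H, h1, h2, h3⟩ := hB
  exact ⟨H, h1, h2, fun x hx => h3 x (h hx)⟩

theorem Small_union {g : ℕ → ℕ} {A B : Set (ℕ → ℕ → Bool)} (hA : A ∈ Small g)
    (hB : B ∈ Small g) : A ∪ B ∈ Small g := by
  obtain ⟨H, h1, h2, h3⟩ := hA
  obtain ⟨H', h1', h2', h3'⟩ := hB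
  refine ⟨H ∪ H', h1.union h1', ?_, ?_⟩
  · rintro h (hh | hh)
    · exact h2 h hh
    · exact h2' h hh
  · rintro x (hx | hx)
    · obtain ⟨h, hh, hx'⟩ := h3 x hx
      exact ⟨h, Or.inl hh, hx'⟩
    · obtain ⟨h, hh, hx'⟩ := h3' x hx
      exact ⟨h, Or.inr hh, hx'⟩

/-- The key point: the full power of `W g` is not small. -/
theorem not_Small (g : ℕ → ℕ) : {x : ℕ → ℕ → Bool | ∀ k, x k ∈ W g} ∉ Small g := by
  rintro ⟨H, hfin, hH, hcov⟩
  have hself : ∀ S : Set ℕ, S.Infinite → pt S g ∈ W g := fun S hS => (pt_mem_W hS).mpr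
    (fun N => by
      obtain ⟨n, hn, hNn⟩ := hS.exists_gt N
      exact ⟨n, hNn.le, hn, le_rfl⟩)
  rcases H.eq_empty_or_nonempty with he | hne
  · obtain ⟨h, hh, -⟩ := hcov (fun _ => pt Set.univ g) (fun _ => hself _ Set.infinite_univ)
    rw [he] at hh
    exact absurd hh (Set.notMem_empty _)
  · obtain ⟨e, he⟩ := hfin.countable.exists_eq_range hne
    have hinf : ∀ k, {n | e k n < g n}.Infinite := fun k =>
      not_evLe (hH (e k) (by rw [he]; exact ⟨k, rfl⟩))
    obtain ⟨h, hh, hx⟩ := hcov (fun k => pt {n | e k n < g n} g) (fun k => hself _ (hinf k))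
    rw [he] at hh
    obtain ⟨k, rfl⟩ := hh
    obtain ⟨n, -, hn, hle⟩ := (pt_mem_W (hinf k)).mp (hx k) 0
    exact absurd hle (not_le.mpr hn)

theorem cofinMinus_IB_le : cofinMinus IB ≤ ((bNum.ord : Ordinal.{0}) : WithTop Ordinal.{0}) := by
  obtain ⟨B, hB, hBc⟩ := bNum_mem
  obtain ⟨a, ha1, ha2⟩ := exists_enum B
  rw [← hBc] at ha1 ha2
  -- common bounds of the initial segments
  have hbd : ∀ β : Ordinal.{0}, ∃ g : ℕ → ℕ, β < bNum.ord → ∀ δ ≤ β, EvLe (a δ) g := by
    intro β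
    by_cases hβ : β < bNum.ord
    · have hlim : Order.IsSuccLimit bNum.ord := isSuccLimit_ord aleph0_le_bNum
      have hβ' : Order.succ β < bNum.ord := hlim.succ_lt hβ
      have hc : #(a '' Set.Iio (Order.succ β)) < bNum :=
        lt_of_le_of_lt (mk_image_Iio_le a _) (lt_ord.mp hβ')
      obtain ⟨g, hg⟩ := bounded_of_lt hc
      exact ⟨g, fun _ δ hδ => hg _ ⟨δ, Order.lt_succ_iff.mpr hδ, rfl⟩⟩
    · exact ⟨fun _ => 0, fun h => absurd h hβ⟩
  choose g hg using hbd
  have hunb : ∀ f : ℕ → ℕ, ∃ α < bNum.ord, ∀ β, α ≤ β → β < bNum.ord → ¬ EvLe (g β) f := by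
    intro f
    by_contra hcon
    push Not at hcon
    apply hB
    refine ⟨f, fun b hb => ?_⟩
    obtain ⟨α, hα, rfl⟩ := ha2 b hb
    obtain ⟨β, hαβ, hβ, hle⟩ := hcon α hα
    exact (hg β hβ α hαβ).trans hle
  set F : Ordinal.{0} → Set (Set (ℕ → Bool)) :=
    fun α => {A | A ∈ IB ∧ ∀ β, α ≤ β → β < bNum.ord → Lim A ∈ Small (g β)} with hF
  have c1 : ∀ α β, α ≤ β → β < bNum.ord → F α ⊆ F β := by
    rintro α β hαβ _ A ⟨hA, h⟩
    exact ⟨hA, fun δ hδ => h δ (hαβ.trans hδ)⟩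
  have c2 : ∀ α < bNum.ord, F α ≠ IB := by
    intro α hα h
    have h1 : V (g α) ∈ IB := V_mem_IB _
    rw [← h] at h1
    have h2 := h1.2 α le_rfl hα
    rw [Lim_V] at h2
    exact not_Small _ h2
  have c3 : IB = {A | ∃ α < bNum.ord, A ∈ F α} := by
    apply le_antisymm
    · rintro A ⟨f, hf⟩
      obtain ⟨α, hα, h⟩ := hunb f
      refine ⟨α, hα, ⟨f, hf⟩, fun β hαβ hβ => ?_⟩
      refine ⟨{f}, Set.finite_singleton f, ?_, ?_⟩
      · rintro _ rfl
        exact h β hαβ hβ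
      · intro x hx
        have hx' := Lim_mono hf hx
        rw [Lim_V] at hx'
        exact ⟨f, rfl, hx'⟩
    · rintro A ⟨α, -, hA⟩
      exact hA.1
  have h0 : (0 : Ordinal.{0}) < bNum.ord := (isSuccLimit_ord aleph0_le_bNum).bot_lt
  obtain ⟨γ', hγ', hlim', F', hch', hF', -⟩ := thin IB bNum.ord F c1 c2 c3 h0
  refine le_trans (csInf_le (OrderBot.bddBelow _) (a := (γ' : WithTop Ordinal.{0})) ?_)
    (WithTop.coe_le_coe.mpr hγ')
  refine ⟨γ', rfl, hlim', F', hch', ?_⟩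
  intro α hα
  obtain ⟨β, hβ, hβF⟩ := hF' α hα
  rw [hβF]
  have hI := IB_sigma.isIdeal
  refine ⟨⟨hI.1, fun δ _ _ => ?_⟩, ?_, ?_⟩
  · refine Small_mono (Small_empty _) ?_
    intro x hx
    obtain ⟨n, -, hn⟩ := hx 0
    exact absurd hn (Set.notMem_empty _)
  · rintro A ⟨hA, h⟩ C hC
    exact ⟨hI.2.1 A hA C hC, fun δ hδ hδ' => Small_mono (h δ hδ hδ') (Lim_mono hC)⟩
  · rintro A ⟨hA, h⟩ C ⟨hC, h'⟩
    exact ⟨hI.2.2 A hA C hC, fun δ hδ hδ' =>
      Small_mono (Small_union (h δ hδ hδ') (h' δ hδ hδ')) (Lim_union A C)⟩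

/-- Groupwise density for an abstract rank that is subadditive under maxima. -/
theorem rank_bounded {γ : Ordinal.{0}} (hγ : γ.card < gNum) (Q : (ℕ → ℕ) → Ordinal.{0} → Prop)
    (hanti : ∀ f g, ∀ α < γ, EvLe f g → Q g α → Q f α)
    (hmax : ∀ f g, ∀ α < γ, Q f α → Q g α → Q (fun n => max (f n) (g n)) α)
    (hex : ∀ f, ∃ α < γ, Q f α) : ∃ α < γ, ∀ f, Q f α := by
  by_contra hcon
  push Not at hcon
  set G : Ordinal.{0} → Set (Set ℕ) := fun α => {A : Set ℕ | A.Infinite ∧ ¬ Q (next A) α} with hG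
  have hgw : ∀ α < γ, GroupwiseDense (G α) := by
    intro α hα
    refine ⟨fun A hA => hA.1, ?_, ?_⟩
    · rintro A ⟨hA, hQA⟩ B hB hBA
      exact ⟨hB, fun h => hQA (hanti _ _ α hα (next_evLe hB hBA) h)⟩
    · intro i hi h0
      obtain ⟨h, hh⟩ := hcon α hα
      obtain ⟨K, hK, hKn⟩ := coarsen i hi h0 h
      by_contra hcon'
      push Not at hcon'
      have hinf : ∀ r, {m | ∃ k ∈ K r, i k ≤ m ∧ m < i (k + 1)}.Infinite := by
        intro r
        refine Set.Infinite.mono ?_ ((hK r).image hi.injective.injOn)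
        rintro _ ⟨k, hk, rfl⟩
        exact ⟨k, hk, le_rfl, hi (Nat.lt_succ_self k)⟩
      have hW : ∀ r, Q (next {m | ∃ k ∈ K r, i k ≤ m ∧ m < i (k + 1)}) α := by
        intro r
        by_contra hnot
        exact hcon' (K r) (hK r) ⟨hinf r, hnot⟩
      set p : Fin 3 → ℕ → ℕ := fun r => next {m | ∃ k ∈ K r, i k ≤ m ∧ m < i (k + 1)} with hp
      apply hh
      have h1 := hmax _ _ α hα (hmax _ _ α hα (hW 0) (hW 1)) (hW 2)
      refine hanti _ _ α hα (EvLe.of_le ?_) h1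
      intro n
      obtain ⟨r, hr⟩ := hKn n
      fin_cases r
      · exact le_trans hr (le_trans (le_max_left _ _) (le_max_left _ _))
      · exact le_trans hr (le_trans (le_max_right _ _) (le_max_left _ _))
      · exact le_trans hr (le_max_right _ _)
  have hle : gNum ≤ γ.card := by
    refine le_trans (gNum_le (𝒢 := G '' Set.Iio γ) ?_ ?_) (mk_image_Iio_le G γ)
    · rintro _ ⟨α, hα, rfl⟩
      exact hgw α hα
    · ext A
      simp only [mem_empty_iff_false, iff_false]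
      intro hA
      obtain ⟨α, hα, hQ⟩ := hex (next A)
      exact (hA (G α) ⟨α, hα, rfl⟩).2 hQ
  exact absurd hγ (not_lt.mpr hle)

/-- The points of index `n` whose `k`-th row is in `W (f k)` for `k ≤ n`. -/
def P (n : ℕ) (f : ℕ → ℕ → ℕ) : Set (ℕ → Bool) := {z | idx z = n ∧ ∀ k ≤ n, row k z ∈ W (f k)}

theorem P_mem_IB (n : ℕ) (f : ℕ → ℕ → ℕ) : P n f ∈ IB := by
  obtain ⟨g, hg⟩ := exists_bound f
  refine ⟨g, ?_⟩
  rintro z ⟨hz, h⟩ k hk
  rw [hz] at hk
  exact W_mono (hg k) (h k hk)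

theorem V_eq (f : ℕ → ℕ) : V f = ⋃ n, P n (fun _ => f) := by
  ext z
  simp only [Set.mem_iUnion]
  constructor
  · intro hz
    exact ⟨idx z, rfl, hz⟩
  · rintro ⟨n, hn, h⟩ k hk
    rw [hn] at hk
    exact h k hk

/-- One coordinate after the other: all products of sets `W` of index `n` appear at one stage. -/
theorem stage_bounded {γ : Ordinal.{0}} (hγ : γ.card < gNum)
    {F : Ordinal.{0} → Set (Set (ℕ → Bool))} (hch : IsChainOf IB γ F)
    (hF : ∀ α < γ, IsIdeal (F α)) (n : ℕ) (j : ℕ) :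
    ∀ f : ℕ → ℕ → ℕ, ∃ α < γ, ∀ g : ℕ → ℕ → ℕ, (∀ k, j ≤ k → g k = f k) → P n g ∈ F α := by
  induction j with
  | zero =>
    intro f
    have h1 := P_mem_IB n f
    rw [hch.2] at h1
    obtain ⟨α, hα, h⟩ := h1
    refine ⟨α, hα, fun g hg => ?_⟩
    have : g = f := funext fun k => hg k (Nat.zero_le k)
    rw [this]; exact h
  | succ j ih =>
    intro f
    obtain ⟨α, hα, h⟩ := rank_bounded hγ
      (fun g α => ∀ e : ℕ → ℕ → ℕ, (∀ k, j + 1 ≤ k → e k = f k) → e j = g → P n e ∈ F α)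
      (by
        intro g g' α hα hgg' hQ e he hej
        have h1 := hQ (Function.update e j g') (fun k hk => by
          rw [Function.update_of_ne (by omega)]; exact he k hk) (by simp)
        refine (hF α hα).2.1 _ h1 _ ?_
        rintro z ⟨hz, hz'⟩
        refine ⟨hz, fun k hk => ?_⟩
        by_cases hkj : k = j
        · subst hkj
          rw [Function.update_self]
          have := hz' k hk
          rw [hej] at this
          exact W_mono hgg' this
        · rw [Function.update_of_ne hkj]; exact hz' k hk)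
      (by
        intro g g' α hα hQ hQ' e he hej
        have h1 := hQ (Function.update e j g) (fun k hk => by
          rw [Function.update_of_ne (by omega)]; exact he k hk) (by simp)
        have h2 := hQ' (Function.update e j g') (fun k hk => by
          rw [Function.update_of_ne (by omega)]; exact he k hk) (by simp)
        refine (hF α hα).2.1 _ ((hF α hα).2.2 _ h1 _ h2) _ ?_
        rintro z ⟨hz, hz'⟩
        by_cases hjn : j ≤ n
        · have h3 := hz' j hjn
          rw [hej] at h3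
          rcases W_max_subset g g' h3 with h4 | h4
          · left
            refine ⟨hz, fun k hk => ?_⟩
            by_cases hkj : k = j
            · subst hkj
              rw [Function.update_self]; exact h4
            · rw [Function.update_of_ne hkj]; exact hz' k hk
          · right
            refine ⟨hz, fun k hk => ?_⟩
            by_cases hkj : k = j
            · subst hkj
              rw [Function.update_self]; exact h4
            · rw [Function.update_of_ne hkj]; exact hz' k hk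
        · left
          refine ⟨hz, fun k hk => ?_⟩
          rw [Function.update_of_ne (by omega)]; exact hz' k hk)
      (by
        intro g
        obtain ⟨α, hα, h⟩ := ih (Function.update f j g)
        refine ⟨α, hα, fun e he hej => h e fun k hk => ?_⟩
        by_cases hkj : k = j
        · subst hkj
          rw [Function.update_self]; exact hej
        · rw [Function.update_of_ne hkj]; exact he k (by omega))
    exact ⟨α, hα, fun e he => h (e j) e he rfl⟩

/-- Any chain of sigma-ideals for `IB` has length at least the groupwise density number. -/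
theorem gNum_le_of_chain {γ : Ordinal.{0}} {F : Ordinal.{0} → Set (Set (ℕ → Bool))}
    (hγ : Order.IsSuccLimit γ) (hch : IsChainOf IB γ F) (hF : ∀ α < γ, IsSigmaIdeal (F α)) :
    gNum.ord ≤ γ := by
  by_contra hcon
  have hcard : γ.card < gNum := lt_ord.mp (not_le.mp hcon)
  have hst : ∀ n, ∃ α < γ, ∀ g : ℕ → ℕ → ℕ, P n g ∈ F α := by
    intro n
    obtain ⟨α, hα, h⟩ := stage_bounded hcard hch (fun α hα => (hF α hα).isIdeal) n (n + 1)
      (fun _ _ => 0)
    refine ⟨α, hα, fun g => ?_⟩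
    have h1 := h (fun k => if k ≤ n then g k else fun _ => 0) (fun k hk => by
      rw [if_neg (by omega)])
    have h2 : P n g = P n (fun k => if k ≤ n then g k else fun _ => 0) := by
      ext z
      constructor
      · rintro ⟨hz, hz'⟩
        refine ⟨hz, fun k hk => ?_⟩
        simp only [if_pos hk]; exact hz' k hk
      · rintro ⟨hz, hz'⟩
        refine ⟨hz, fun k hk => ?_⟩
        have := hz' k hk
        simp only [if_pos hk] at this
        exact this
    rw [h2]; exact h1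
  choose α hα hP using hst
  have hex : ∀ n, ∃ B ∈ IB, B ∉ F (α n) := fun n => Set.exists_of_ssubset (hch.ne hγ (hα n))
  choose B hB hB' using hex
  have hU := IB_sigma.2.2 B hB
  rw [hch.2] at hU
  obtain ⟨β, hβ, hUβ⟩ := hU
  have hlt : ∀ n, α n ≤ β := by
    intro n
    by_contra hcon'
    have h1 : β ≤ α n := (not_le.mp hcon').le
    apply hB' n
    exact hch.mono h1 (hα n) ((hF β hβ).2.1 _ hUβ _ (Set.subset_iUnion B n))
  have hV : ∀ f, V f ∈ F β := by
    intro f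
    rw [V_eq]
    exact (hF β hβ).2.2 _ (fun n => hch.mono (hlt n) hβ (hP n _))
  obtain ⟨A, ⟨f, hf⟩, hA'⟩ := Set.exists_of_ssubset (hch.ne hγ hβ)
  exact hA' ((hF β hβ).2.1 _ (hV f) _ hf)

theorem gNum_le_cofin_IB : ((gNum.ord : Ordinal.{0}) : WithTop Ordinal.{0}) ≤ cofin IB := by
  apply le_sInf
  rintro _ ⟨γ, rfl, hγ, F, hch, hF⟩
  exact WithTop.coe_le_coe.mpr (gNum_le_of_chain hγ hch hF)

/-- Chains for the ideal `ID` of part (a) lift to chains for `IB`. -/
theorem cofin_IB_le : cofin IB ≤ cofin ID := by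
  apply le_sInf
  rintro _ ⟨γ, rfl, hγ, F, hch, hF⟩
  set pr : Set (ℕ → Bool) → Set (ℕ → Bool) := fun A => {x | ∃ z ∈ A, idx z = 0 ∧ row 0 z = x}
    with hpr
  have hprV : ∀ {A : Set (ℕ → Bool)} {f : ℕ → ℕ}, A ⊆ V f → pr A ⊆ W f := by
    rintro A f hA x ⟨z, hz, hz0, rfl⟩
    exact hA hz 0 (by omega)
  refine csInf_le (OrderBot.bddBelow _) ⟨γ, rfl, hγ, fun α => {A | A ∈ IB ∧ pr A ∈ F α},
    ⟨?_, ?_⟩, ?_⟩
  · intro α β hαβ hβ
    have h1 := hch.1 α β hαβ hβ
    refine (Set.ssubset_iff_subset_ne).mpr ⟨fun A hA => ⟨hA.1, h1.1 hA.2⟩, fun heq => ?_⟩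
    obtain ⟨B, hB, hB'⟩ := Set.exists_of_ssubset h1
    have hBI : B ∈ ID := by
      rw [hch.2]; exact ⟨β, hβ, hB⟩
    obtain ⟨f, hf⟩ := hBI
    have h2 : pr {z | idx z = 0 ∧ row 0 z ∈ B} = B := by
      ext x
      constructor
      · rintro ⟨z, ⟨-, hz⟩, -, rfl⟩
        exact hz
      · intro hx
        refine ⟨enc 0 (fun _ => x), ⟨idx_enc _ _, ?_⟩, idx_enc _ _, row_enc _ _ _⟩
        rw [row_enc]; exact hx
    have h3 : {z | idx z = 0 ∧ row 0 z ∈ B} ∈ IB := by
      refine ⟨f, ?_⟩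
      rintro z ⟨hz0, hz⟩ k hk
      have : k = 0 := by omega
      subst this
      exact hf hz
    have h4 : {z | idx z = 0 ∧ row 0 z ∈ B} ∈ {A | A ∈ IB ∧ pr A ∈ F β} :=
      ⟨h3, by rw [h2]; exact hB⟩
    have h5 : {z | idx z = 0 ∧ row 0 z ∈ B} ∈ {A | A ∈ IB ∧ pr A ∈ F α} := by
      rw [show {A | A ∈ IB ∧ pr A ∈ F α} = {A | A ∈ IB ∧ pr A ∈ F β} from heq]; exact h4
    apply hB'
    have h6 := h5.2
    rwa [h2] at h6
  · apply le_antisymm
    · rintro A ⟨f, hf⟩
      have h1 : pr A ∈ ID := ⟨f, hprV hf⟩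
      rw [hch.2] at h1
      obtain ⟨α, hα, h⟩ := h1
      exact ⟨α, hα, ⟨f, hf⟩, h⟩
    · rintro A ⟨α, -, hA⟩
      exact hA.1
  · intro α hα
    refine ⟨⟨IB_sigma.1, ?_⟩, ?_, ?_⟩
    · have : pr ∅ = ∅ := by
        ext x
        simp [hpr]
      rw [this]; exact (hF α hα).1
    · rintro A ⟨hA, hA'⟩ C hC
      refine ⟨IB_sigma.2.1 A hA C hC, (hF α hα).2.1 _ hA' _ ?_⟩
      rintro x ⟨z, hz, hz'⟩
      exact ⟨z, hC hz, hz'⟩
    · intro A hA
      refine ⟨IB_sigma.2.2 A (fun n => (hA n).1), ?_⟩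
      refine (hF α hα).2.1 _ ((hF α hα).2.2 (fun n => pr (A n)) (fun n => (hA n).2)) _ ?_
      rintro x ⟨z, hz, hz'⟩
      obtain ⟨n, hn⟩ := Set.mem_iUnion.mp hz
      exact Set.mem_iUnion.mpr ⟨n, z, hn, hz'⟩

theorem cofinStar_le_cofinMinus {X : Type} (I : Set (Set X)) : cofinStar I ≤ cofinMinus I := by
  apply le_sInf
  rintro _ ⟨γ, rfl, hγ, F, hch, hF⟩
  exact csInf_le (OrderBot.bddBelow _) ⟨γ, rfl, hγ, F, hch, fun α hα => (hF α hα).2.1⟩

/-- Part (b). -/
theorem partB : ∃ I : Set (Set (ℕ → Bool)), IsBorelSigmaIdeal I ∧ (∀ x, {x} ∈ I) ∧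
    Set.univ ∉ I ∧ add I = bNum ∧
    cofinStar I = ((bNum.ord : Ordinal.{0}) : WithTop Ordinal.{0}) ∧
    cofinMinus I = ((bNum.ord : Ordinal.{0}) : WithTop Ordinal.{0}) ∧
    ((gNum.ord : Ordinal.{0}) : WithTop Ordinal.{0}) ≤ cofin I ∧
    cofin I ≤ ((dNum.ord : Ordinal.{0}) : WithTop Ordinal.{0}) ∧
    (bNum < gNum → cofinMinus I < cofin I) := by
  have h1 : cofinStar IB = (((add IB).ord : Ordinal.{0}) : WithTop Ordinal.{0}) :=
    cofinStar_eq_add IB_sigma.isIdeal IB_sUnion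
  have h2 : (((add IB).ord : Ordinal.{0}) : WithTop Ordinal.{0}) ≤
      ((bNum.ord : Ordinal.{0}) : WithTop Ordinal.{0}) := by
    rw [← h1]; exact (cofinStar_le_cofinMinus IB).trans cofinMinus_IB_le
  have h3 : add IB ≤ bNum := Cardinal.ord_le_ord.mp (WithTop.coe_le_coe.mp h2)
  have h4 : add IB = bNum := le_antisymm h3 bNum_le_add_IB
  have h5 : cofinMinus IB = ((bNum.ord : Ordinal.{0}) : WithTop Ordinal.{0}) := by
    apply le_antisymm cofinMinus_IB_le
    have := cofinStar_le_cofinMinus IB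
    rwa [h1, h4] at this
  refine ⟨IB, IB_borel, IB_singleton, IB_univ, h4, by rw [h1, h4], h5, gNum_le_cofin_IB, ?_, ?_⟩
  · refine cofin_IB_le.trans ?_
    rw [cofin_ID_eq]
    exact cofinMinus_ID_le
  · intro h
    rw [h5]
    exact lt_of_lt_of_le (WithTop.coe_lt_coe.mpr (Cardinal.ord_lt_ord.mpr h)) gNum_le_cofin_IB

end Pool.Agent.Cofin77
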